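import Pool.Agent.H863.TZ.Small

/-!
# Trapezoidal pairs with `m ≤ 5 a`

Conditions 1, 3, 4, 5 of the problem with a nonzero bracket and `m ≤ 5 a` leave only two values of
`m / a`, and for each of them an explicit list of lines for `(a, b)` and a lower bound for `n / a`.
-/

set_option autoImplicit false

namespace Pool.Agent.Results.MP_2d59ee_ag.FirstCorners

open MvPolynomial Pool.Agent.TH207

/-- Let the parameters be as in the problem, with `m ≤ 5 a`. If `F, G` satisfy conditions 1, 3, 4, 5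
of the problem and `[F, G] ≠ 0`, then either `m = 4 a`, `n` is a multiple of `4 a` with `n ≥ 12 a`
and `2 b + 1 = 3 a`, or `m = 5 a`, `n` is a multiple of `5 a` with `n ≥ 20 a` and `(a, b)` lies on
one of five explicit lines. (So for all other parameters with `m ≤ 5 a` the answer is
affirmative.) -/
theorem result (a b m n : ℕ) (hm : 0 < m) (hmn : m < n) (ham : a ∣ m) (han : a ∣ n)
    (hab : Nat.gcd a b = 1) (ha : 2 ≤ a) (hlt : a < b) (hm5 : m ≤ 5 * a)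
    (F G : MvPolynomial (Fin 2) ℂ)
    (h1 : convexHull ℝ (insert ((0:ℝ), (0:ℝ))
        ((fun d : Fin 2 →₀ ℕ => ((d 0 : ℝ), (d 1 : ℝ))) '' (↑F.support : Set (Fin 2 →₀ ℕ))))
        = {p : ℝ × ℝ | 0 ≤ p.2 ∧ p.2 ≤ (n : ℝ) ∧ 0 ≤ p.1 ∧ p.1 ≤ (m : ℝ) + (n : ℝ) - p.2})
    (h3 : ∀ i : ℕ, i ≤ n →
        ((X 0 + X 1 : MvPolynomial (Fin 2) ℂ) ^ (n - i)) ∣ homogeneousComponent (m + n - i) F)
    (h4 : convexHull ℝ (insert ((0:ℝ), (0:ℝ))
        ((fun d : Fin 2 →₀ ℕ => ((d 0 : ℝ), (d 1 : ℝ))) '' (↑G.support : Set (Fin 2 →₀ ℕ))))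
        = {p : ℝ × ℝ | 0 ≤ p.2 ∧ p.2 ≤ ((b * n / a : ℕ) : ℝ) ∧ 0 ≤ p.1 ∧
            p.1 ≤ ((b * m / a : ℕ) : ℝ) + ((b * n / a : ℕ) : ℝ) - p.2})
    (h5 : ∃ c : ℂ, pderiv 0 F * pderiv 1 G - pderiv 1 F * pderiv 0 G = C c)
    (hne : pderiv 0 F * pderiv 1 G - pderiv 1 F * pderiv 0 G ≠ 0) :
    (m = 4 * a ∧ 4 * a ∣ n ∧ 12 * a ≤ n ∧ 2 * b + 1 = 3 * a) ∨
    (m = 5 * a ∧ 5 * a ∣ n ∧ 20 * a ≤ n ∧
      (b + 1 = 2 * a ∨ b + 2 = 6 * a ∨ 3 * b = 4 * a + 1 ∨ 3 * b + 2 = 8 * a ∨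
        4 * b = 7 * a + 1)) := by
  obtain ⟨c, hc⟩ := h5
  have hc0 : c ≠ 0 := by
    rintro rfl
    apply hne
    rw [hc, map_zero]
  obtain ⟨p, rfl⟩ := ham
  obtain ⟨q, rfl⟩ := han
  have ha0 : 0 < a := by omega
  have hp : 0 < p := Nat.pos_of_ne_zero (by rintro rfl; simp at hm)
  have hpq : p < q := Nat.lt_of_mul_lt_mul_left hmn
  have hp5 : p ≤ 5 := by
    rw [mul_comm 5 a] at hm5
    exact Nat.le_of_mul_le_mul_left hm5 ha0
  have e1 : b * (a * q) / a = b * q := by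
    have : b * (a * q) = b * q * a := by ring
    rw [this, Nat.mul_div_cancel _ ha0]
  have e2 : b * (a * p) / a = b * p := by
    have : b * (a * p) = b * p * a := by ring
    rw [this, Nat.mul_div_cancel _ ha0]
  rw [e1, e2] at h4
  obtain ⟨f1, f2⟩ := Tz.hull (Nat.mul_pos ha0 (by omega)) h1
  obtain ⟨g1, g2⟩ := Tz.hull (Nat.mul_pos (by omega) (by omega)) h4
  rcases Pool.Agent.H863.TZ.small ha hlt hab hp hpq hp5 hc0 hc f1 f2 h3 g1 g2 with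
    ⟨rfl, j1, j2, j3⟩ | ⟨rfl, j1, j2, j3⟩
  · left
    refine ⟨mul_comm a 4, ?_, ?_, j3⟩
    · rw [mul_comm 4 a]
      exact Nat.mul_dvd_mul_left a j1
    · rw [mul_comm 12 a]
      exact Nat.mul_le_mul_left a j2
  · right
    refine ⟨mul_comm a 5, ?_, ?_, j3⟩
    · rw [mul_comm 5 a]
      exact Nat.mul_dvd_mul_left a j1
    · rw [mul_comm 20 a]
      exact Nat.mul_le_mul_left a j2

end Pool.Agent.Results.MP_2d59ee_ag.FirstCorners
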