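import Pool.Agent.H863.TZ.Gap3

/-!
# Trapezoidal pairs with `n < m + 12 a`

If `n < m + 12 a` then conditions 1, 3, 4, 5 of the problem with a nonzero bracket force
`(m, n) = (4 a, 12 a)` with `2 b + 1 = 3 a`, or `m = 6 a` and `n = 15 a` or `n = 16 a`.
-/

set_option autoImplicit false

namespace Pool.Agent.Results.MP_2d59ee_ag.GapTwelve

open MvPolynomial Pool.Agent.TH207

/-- Let the parameters be as in the problem, where `n < m + 12 a`. If `F, G` satisfy conditions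
1, 3, 4, 5 of the problem and `[F, G] ≠ 0`, then either `m = 4 a`, `n = 12 a` and `2 b + 1 = 3 a`,
or `m = 6 a` and `n` is `15 a` or `16 a`. (So for all other parameters with `n < m + 12 a` the
answer is affirmative.) -/
theorem result (a b m n : ℕ) (hm : 0 < m) (hmn : m < n) (ham : a ∣ m) (han : a ∣ n)
    (hab : Nat.gcd a b = 1) (ha : 2 ≤ a) (hlt : a < b) (hgap : n < m + 12 * a)
    (F G : MvPolynomial (Fin 2) ℂ)
    (h1 : convexHull ℝ (insert ((0:ℝ), (0:ℝ))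
        ((fun d : Fin 2 →₀ ℕ => ((d 0 : ℝ), (d 1 : ℝ))) '' (↑F.support : Set (Fin 2 →₀ ℕ))))
        = {p : ℝ × ℝ | 0 ≤ p.2 ∧ p.2 ≤ (n : ℝ) ∧ 0 ≤ p.1 ∧ p.1 ≤ (m : ℝ) + (n : ℝ) - p.2})
    (h3 : ∀ i : ℕ, i ≤ n →
        ((X 0 + X 1 : MvPolynomial (Fin 2) ℂ) ^ (n - i)) ∣ homogeneousComponent (m + n - i) F)
    (h4 : convexHull ℝ (insert ((0:ℝ), (0:ℝ))
        ((fun d : Fin 2 →₀ ℕ => ((d 0 : ℝ), (d 1 : ℝ))) '' (↑G.support : Set (Fin 2 →₀ ℕ))))
        = {p : ℝ × ℝ | 0 ≤ p.2 ∧ p.2 ≤ ((b * n / a : ℕ) : ℝ) ∧ 0 ≤ p.1 ∧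
            p.1 ≤ ((b * m / a : ℕ) : ℝ) + ((b * n / a : ℕ) : ℝ) - p.2})
    (h5 : ∃ c : ℂ, pderiv 0 F * pderiv 1 G - pderiv 1 F * pderiv 0 G = C c)
    (hne : pderiv 0 F * pderiv 1 G - pderiv 1 F * pderiv 0 G ≠ 0) :
    (m = 4 * a ∧ n = 12 * a ∧ 2 * b + 1 = 3 * a) ∨
    (m = 6 * a ∧ (n = 15 * a ∨ n = 16 * a)) := by
  obtain ⟨c, hc⟩ := h5
  have hc0 : c ≠ 0 := by
    rintro rfl
    apply hne
    rw [hc, map_zero]
  obtain ⟨p, rfl⟩ := ham
  obtain ⟨q, rfl⟩ := han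
  have ha0 : 0 < a := by omega
  have hp : 0 < p := Nat.pos_of_ne_zero (by rintro rfl; simp at hm)
  have hpq : p < q := Nat.lt_of_mul_lt_mul_left hmn
  have hq12 : q < p + 12 := by
    apply Nat.lt_of_mul_lt_mul_left (a := a)
    calc a * q < a * p + 12 * a := hgap
      _ = a * (p + 12) := by ring
  have e1 : b * (a * q) / a = b * q := by
    have : b * (a * q) = b * q * a := by ring
    rw [this, Nat.mul_div_cancel _ ha0]
  have e2 : b * (a * p) / a = b * p := by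
    have : b * (a * p) = b * p * a := by ring
    rw [this, Nat.mul_div_cancel _ ha0]
  rw [e1, e2] at h4
  obtain ⟨f1, f2⟩ := Tz.hull (Nat.mul_pos ha0 (by omega)) h1
  obtain ⟨g1, g2⟩ := Tz.hull (Nat.mul_pos (by omega) (by omega)) h4
  rcases Pool.Agent.H863.TZ.gap_corner12 ha (by omega) hab hp hpq hc0 hc f1 f2 h3 g1 g2 hq12 with
    ⟨rfl, hq⟩ | ⟨rfl, hq⟩
  · left
    rcases Pool.Agent.H863.TZ.small ha hlt hab hp hpq (by norm_num) hc0 hc f1 f2 h3 g1 g2 with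
      ⟨_, j1, j2, j3⟩ | ⟨j0, _⟩
    · have hq' : q = 12 := by omega
      subst hq'
      exact ⟨mul_comm a 4, mul_comm a 12, j3⟩
    · omega
  · right
    refine ⟨mul_comm a 6, ?_⟩
    have h8 := Pool.Agent.Y83.NP.tz_coprime ha (by omega) hab hp (by omega : 0 < q) hc0 hc f1 f2
      g1 g2
    have hq' : q = 15 ∨ q = 16 ∨ q = 17 := by omega
    rcases hq' with rfl | rfl | rfl
    · exact Or.inl (mul_comm a 15)
    · exact Or.inr (mul_comm a 16)
    · exact absurd (by norm_num) h8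

end Pool.Agent.Results.MP_2d59ee_ag.GapTwelve
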