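import Pool.Agent.H863.TZ.Main

/-!
# Trapezoidal pairs: linear relations between `a` and `b`

Conditions 1, 3, 4, 5 of the problem with a nonzero constant bracket force one of finitely many
linear relations between `a` and `b`, which only depend on `m / a` and `n / a`.
-/

set_option autoImplicit false

namespace Pool.Agent.Results.MP_2d59ee_ag.LinearRelations

open MvPolynomial Pool.Agent.TH207

/-- Let the parameters be as in the problem, `p = m / a` and `q = n / a`. Suppose that there are no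
positive integers `α, β, N` with `N < p`, `α + N β ≤ p ^ 2 - 3 p + 1`, `α + N β ≤ q - p - 1` and
`β (N a - 1) = α b` or `β (N b - 1) = α a`. If `F, G` satisfy conditions 1, 3, 4, 5 of the problem,
then `[F, G] = 0`. (So for given `p` the answer is affirmative for all `(a, b)` outside of finitely
many lines, and for given `(a, b)` it is affirmative for all small `p`, or small `q - p`.) -/
theorem result (a b m n : ℕ) (hm : 0 < m) (hmn : m < n) (ham : a ∣ m) (han : a ∣ n)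
    (hab : Nat.gcd a b = 1) (ha : 2 ≤ a) (hlt : a < b)
    (hrel : ∀ α β N : ℕ, 0 < α → 0 < β → 0 < N → N < m / a →
      α + N * β + 3 * (m / a) ≤ (m / a) ^ 2 + 1 → α + N * β + m / a + 1 ≤ n / a →
      β * (N * a - 1) ≠ α * b ∧ β * (N * b - 1) ≠ α * a)
    (F G : MvPolynomial (Fin 2) ℂ)
    (h1 : convexHull ℝ (insert ((0:ℝ), (0:ℝ))
        ((fun d : Fin 2 →₀ ℕ => ((d 0 : ℝ), (d 1 : ℝ))) '' (↑F.support : Set (Fin 2 →₀ ℕ))))
        = {p : ℝ × ℝ | 0 ≤ p.2 ∧ p.2 ≤ (n : ℝ) ∧ 0 ≤ p.1 ∧ p.1 ≤ (m : ℝ) + (n : ℝ) - p.2})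
    (h3 : ∀ i : ℕ, i ≤ n →
        ((X 0 + X 1 : MvPolynomial (Fin 2) ℂ) ^ (n - i)) ∣ homogeneousComponent (m + n - i) F)
    (h4 : convexHull ℝ (insert ((0:ℝ), (0:ℝ))
        ((fun d : Fin 2 →₀ ℕ => ((d 0 : ℝ), (d 1 : ℝ))) '' (↑G.support : Set (Fin 2 →₀ ℕ))))
        = {p : ℝ × ℝ | 0 ≤ p.2 ∧ p.2 ≤ ((b * n / a : ℕ) : ℝ) ∧ 0 ≤ p.1 ∧
            p.1 ≤ ((b * m / a : ℕ) : ℝ) + ((b * n / a : ℕ) : ℝ) - p.2})
    (h5 : ∃ c : ℂ, pderiv 0 F * pderiv 1 G - pderiv 1 F * pderiv 0 G = C c) :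
    pderiv 0 F * pderiv 1 G - pderiv 1 F * pderiv 0 G = 0 := by
  obtain ⟨c, hc⟩ := h5
  by_cases hc0 : c = 0
  · rw [hc, hc0, map_zero]
  exfalso
  obtain ⟨p, rfl⟩ := ham
  obtain ⟨q, rfl⟩ := han
  have ha0 : 0 < a := by omega
  have hp : 0 < p := Nat.pos_of_ne_zero (by rintro rfl; simp at hm)
  have hpq : p < q := Nat.lt_of_mul_lt_mul_left hmn
  have e1 : b * (a * q) / a = b * q := by
    have : b * (a * q) = b * q * a := by ring
    rw [this, Nat.mul_div_cancel _ ha0]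
  have e2 : b * (a * p) / a = b * p := by
    have : b * (a * p) = b * p * a := by ring
    rw [this, Nat.mul_div_cancel _ ha0]
  rw [e1, e2] at h4
  rw [Nat.mul_div_cancel_left p ha0, Nat.mul_div_cancel_left q ha0] at hrel
  obtain ⟨f1, f2⟩ := Tz.hull (Nat.mul_pos ha0 (by omega)) h1
  obtain ⟨g1, g2⟩ := Tz.hull (Nat.mul_pos (by omega) (by omega)) h4
  have hR := Pool.Agent.H863.TZ.main_rel ha (by omega) hab hp hpq hc0 hc f1 f2 h3
    (fun d hd => (g1 d hd).2) g2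
  obtain ⟨α, β, N, j1, j2, j3, j4, j5, j6⟩ := hR.linear ha (by omega)
  have j7 := (le_min_iff.1 j5).1
  have j8 := (le_min_iff.1 j5).2
  obtain ⟨k1, k2⟩ := hrel α β N j1 j2 j3 (by zify; linarith)
    (by zify; push_cast at j7; linarith) (by zify; push_cast at j8; linarith)
  rcases j6 with j6 | j6
  · exact k1 j6
  · exact k2 j6

end Pool.Agent.Results.MP_2d59ee_ag.LinearRelations
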