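import Pool.Agent.H863.TZ.Prime

/-!
# Trapezoidal pairs for which `m / a` is a prime number

The answer to the question is affirmative if `m / a` is a prime number and `n < 3 m`.
-/

set_option autoImplicit false

namespace Pool.Agent.Results.MP_2d59ee_ag.PrimeCorners

open MvPolynomial Pool.Agent.TH207

/-- Let the parameters be as in the problem, where `m / a` is a prime number and `n < 3 m`. If
`F, G` satisfy conditions 1, 3, 4, 5 of the problem then `[F, G] = 0`. -/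
theorem result (a b m n : ℕ) (hm : 0 < m) (hmn : m < n) (ham : a ∣ m) (han : a ∣ n)
    (hab : Nat.gcd a b = 1) (ha : 2 ≤ a) (hlt : a < b) (hprime : (m / a).Prime) (hn3 : n < 3 * m)
    (F G : MvPolynomial (Fin 2) ℂ)
    (h1 : convexHull ℝ (insert ((0:ℝ), (0:ℝ))
        ((fun d : Fin 2 →₀ ℕ => ((d 0 : ℝ), (d 1 : ℝ))) '' (↑F.support : Set (Fin 2 →₀ ℕ))))
        = {p : ℝ × ℝ | 0 ≤ p.2 ∧ p.2 ≤ (n : ℝ) ∧ 0 ≤ p.1 ∧ p.1 ≤ (m : ℝ) + (n : ℝ) - p.2})
    (h3 : ∀ i : ℕ, i ≤ n →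
        ((X 0 + X 1 : MvPolynomial (Fin 2) ℂ) ^ (n - i)) ∣ homogeneousComponent (m + n - i) F)
    (h4 : convexHull ℝ (insert ((0:ℝ), (0:ℝ))
        ((fun d : Fin 2 →₀ ℕ => ((d 0 : ℝ), (d 1 : ℝ))) '' (↑G.support : Set (Fin 2 →₀ ℕ))))
        = {p : ℝ × ℝ | 0 ≤ p.2 ∧ p.2 ≤ ((b * n / a : ℕ) : ℝ) ∧ 0 ≤ p.1 ∧
            p.1 ≤ ((b * m / a : ℕ) : ℝ) + ((b * n / a : ℕ) : ℝ) - p.2})
    (h5 : ∃ c : ℂ, pderiv 0 F * pderiv 1 G - pderiv 1 F * pderiv 0 G = C c) :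
    pderiv 0 F * pderiv 1 G - pderiv 1 F * pderiv 0 G = 0 := by
  obtain ⟨c, hc⟩ := h5
  by_cases hc0 : c = 0
  · rw [hc, hc0, map_zero]
  exfalso
  obtain ⟨p, rfl⟩ := ham
  obtain ⟨q, rfl⟩ := han
  have ha0 : 0 < a := by omega
  rw [Nat.mul_div_cancel_left p ha0] at hprime
  have hpq : p < q := Nat.lt_of_mul_lt_mul_left hmn
  have e1 : b * (a * q) / a = b * q := by
    have : b * (a * q) = b * q * a := by ring
    rw [this, Nat.mul_div_cancel _ ha0]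
  have e2 : b * (a * p) / a = b * p := by
    have : b * (a * p) = b * p * a := by ring
    rw [this, Nat.mul_div_cancel _ ha0]
  rw [e1, e2] at h4
  obtain ⟨f1, f2⟩ := Tz.hull (Nat.mul_pos ha0 (by omega)) h1
  obtain ⟨g1, g2⟩ := Tz.hull (Nat.mul_pos (by omega) (by omega)) h4
  have hq := Pool.Agent.H863.TZ.prime_corner ha (by omega) hab hprime hpq hc0 hc f1 f2 h3 g1 g2
  have h6 : a * (3 * p) ≤ a * q := Nat.mul_le_mul_left a hq
  have h7 : a * (3 * p) = 3 * (a * p) := by ring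
  omega

end Pool.Agent.Results.MP_2d59ee_ag.PrimeCorners
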